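import Pool.Agent.Q230.E8Pair

/-!
# An `E₈ ⊕ 10 H` pairing from `ℤ^8`

`Coh` is `H*(ℤ^8)`, the exterior algebra of `ℤ^8`, with the generators `x 0, …, x 7` of degree one;
`H k` is the part of degree `k`; `IsEval τ` says that `τ : H*(ℤ^8) → ℤ` is the evaluation on the
fundamental class `[T]`, i.e. `τ` vanishes in degrees `≠ 8` and `τ (x_1 ⋯ x_8) = 1` (there is
exactly one such `τ`).  There is a class `ω ∈ H⁴(ℤ^8)` whose pairing
`B_ω(x, y) = ⟨x ∪ y ∪ ω, [T]⟩` on `H²(ℤ^8)` is isomorphic to `E₈ ⊕ 10 H`.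
-/

namespace Pool.Agent.Results.MP_58c1a9_gt.PairingE8

open Matrix Pool.Agent.Q230 Pool.Agent.Q230.E8Data

/-- `H¹(ℤ^8) = ℤ^8` -/
def H1 : Type := Fin 8 → ℤ

instance : AddCommGroup H1 := inferInstanceAs (AddCommGroup (Fin 8 → ℤ))

/-- `H*(ℤ^8)`, the exterior algebra on `H¹(ℤ^8)` -/
def Coh : Type := ExteriorAlgebra ℤ H1

/-- its ring structure (the cup product) -/
noncomputable instance : Ring Coh := inferInstanceAs (Ring (ExteriorAlgebra ℤ H1))

/-- the standard basis of `H¹(ℤ^8) = ℤ^8` -/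
def bas (i : Fin 8) : H1 := (Pi.single i 1 : Fin 8 → ℤ)

/-- the generators of `H*(ℤ^8)` -/
noncomputable def x (i : Fin 8) : Coh := ExteriorAlgebra.ι ℤ (bas i)

/-- `H^k(ℤ^8)`, the `k`-th exterior power -/
def H (k : ℕ) : AddSubgroup Coh := (⋀[ℤ]^k H1).toAddSubgroup

/-- `τ` is the evaluation on the fundamental class `[T]` -/
structure IsEval (τ : Coh →+ ℤ) : Prop where
  zero : ∀ k ≠ 8, ∀ z ∈ H k, τ z = 0
  one : τ (x 0 * x 1 * x 2 * x 3 * x 4 * x 5 * x 6 * x 7) = 1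

/-- the index set of the basis of `E₈ ⊕ 10 H` -/
abbrev Idx : Type := Fin 8 ⊕ Fin 10 × Fin 2

/-- the Gram matrix of `E₈ ⊕ 10 H` -/
def E8H : Matrix Idx Idx ℤ :=
  Matrix.fromBlocks CartanMatrix.E₈ 0 0 (fun p q => if p.1 = q.1 ∧ p.2 ≠ q.2 then 1 else 0)

theorem ML_eq (i j : Idx) :
    E8Pair.ent ML (E8Pair.num i) (E8Pair.num j) = E8H i j := by
  rcases i with i | ⟨r, s⟩ <;> rcases j with j | ⟨r', s'⟩
  · revert i j; decide +kernel
  · revert i r' s'; decide +kernel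
  · revert r s j; decide +kernel
  · revert r s r' s'; decide +kernel

/-- the bilinear form `E₈ ⊕ 10 H` on `ℤ^28` -/
def form (u v : Idx → ℤ) : ℤ := u ⬝ᵥ (E8H *ᵥ v)

/-- the evaluation -/
noncomputable def ev : Coh →+ ℤ := E8Pair.evalT.toAddMonoidHom

theorem isEval_ev : IsEval ev := by
  constructor
  · intro k hk z hz
    have hz' : z ∈ (⋀[ℤ]^k (Fin 8 → ℤ) : Submodule ℤ (ExteriorAlgebra ℤ (Fin 8 → ℤ))) := hz
    rw [← ExteriorAlgebra.ιMulti_span_fixedDegree] at hz'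
    change E8Pair.evalT z = 0
    refine Submodule.span_induction (p := fun z _ => E8Pair.evalT z = 0) ?_ ?_ ?_ ?_ hz'
    · rintro _ ⟨v, rfl⟩
      unfold E8Pair.evalT
      rw [ExteriorAlgebra.liftAlternating_apply_ιMulti, Function.update_of_ne hk]
      rfl
    · exact map_zero _
    · intro a b _ _ ha hb
      rw [map_add, ha, hb, add_zero]
    · intro c a _ ha
      rw [map_smul, ha, smul_zero]
  · change E8Pair.evalT _ = 1
    have h1 := E8Pair.evalT_single id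
    have h2 : E8Pair.E (fun i : Fin 8 => ((id i : Fin 8) : ℕ)) = 1 := by decide +kernel
    rw [h2] at h1
    rw [← h1]
    congr 1
    rw [ExteriorAlgebra.ιMulti_apply]
    simp only [List.ofFn_succ, List.ofFn_zero, List.prod_cons, List.prod_nil, mul_one]
    simp only [← mul_assoc]
    rfl

/-- **Main theorem.** There are a class `ω ∈ H⁴(ℤ^8)` and an isomorphism `φ : ℤ^28 ≃ H²(ℤ^8)` which
carries the form `E₈ ⊕ 10 H` to the pairing `B_ω(x, y) = ⟨x ∪ y ∪ ω, [T]⟩`. -/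
theorem result : ∃ τ : Coh →+ ℤ, IsEval τ ∧ ∃ ω ∈ H 4,
    ∃ φ : (Idx → ℤ) ≃+ H 2, ∀ u v : Idx → ℤ, τ (φ u * φ v * ω) = form u v := by
  refine ⟨ev, isEval_ev, E8Pair.om.1, E8Pair.om.2, ?_, ?_⟩
  · exact
    { toFun := fun u => ⟨(E8Pair.fB.equivFun.symm u).1, (E8Pair.fB.equivFun.symm u).2⟩
      invFun := fun z => E8Pair.fB.equivFun ⟨z.1, z.2⟩
      left_inv := fun u => E8Pair.fB.equivFun.apply_symm_apply u
      right_inv := fun z => by
        apply Subtype.ext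
        change ((E8Pair.fB.equivFun.symm (E8Pair.fB.equivFun ⟨z.1, z.2⟩) :
          ⋀[ℤ]^2 E8Pair.H1) : ExteriorAlgebra ℤ E8Pair.H1) = z.1
        rw [LinearEquiv.symm_apply_apply]
      map_add' := fun u v => by
        apply Subtype.ext
        change ((E8Pair.fB.equivFun.symm (u + v) : ⋀[ℤ]^2 E8Pair.H1) :
          ExteriorAlgebra ℤ E8Pair.H1) = _
        rw [map_add]
        rfl }
  · intro u v
    have h0 : ∀ (a b : ⋀[ℤ]^2 E8Pair.H1) (w : ⋀[ℤ]^4 E8Pair.H1),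
        ev ((show Coh from a.1) * (show Coh from b.1) * (show Coh from w.1)) =
          E8Pair.pairing w a b := fun _ _ _ => rfl
    refine (h0 (E8Pair.fB.equivFun.symm u) (E8Pair.fB.equivFun.symm v) E8Pair.om).trans ?_
    rw [Module.Basis.equivFun_symm_apply, Module.Basis.equivFun_symm_apply, E8Pair.pairing_sum]
    simp only [E8Pair.pairing_fB, ML_eq]
    unfold form dotProduct mulVec dotProduct
    refine Finset.sum_congr rfl fun i _ => ?_
    congr 1
    exact Finset.sum_congr rfl fun j _ => mul_comm _ _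

end Pool.Agent.Results.MP_58c1a9_gt.PairingE8
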